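import Pool.Agent.Q269.GR.StD

/-!
# Project GR (helper269): the cells of the typical twists `XA`, uniform bounds
-/

set_option autoImplicit false
set_option linter.all false

open scoped Classical
open Finset Polynomial

namespace Pool.Agent.Q241.GR

open Pool.Agent.Q269.GR
open Pool.Agent.Y164.PS (L sg)
open Pool.Agent.H341R2.Sharp (Mon)

section

variable {k : Type} [Field k] [Fintype k]

theorem card_pr_filter (h : S_PRD) {Δ : k[X]} (hΔ : Δ ≠ 0) {m : ℕ} {P : Fin m → k[X]} (hP : Pfam Δ P)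
    (p : k[X] → Prop) [DecidablePred p] :
    ((pr (∏ i, P i)).filter p).card = ((univ : Finset (Fin m)).filter fun i => p (P i)).card := by
  rw [((h k Δ hΔ).1 (Fin m) P hP).1, filter_image, card_image_of_injective _ hP.inj]

theorem natDegree_of_mem_Dn {Δ D : k[X]} {n : ℕ} (h : D ∈ Dn Δ n) : D.natDegree = n := by
  unfold Dn at h
  rw [mem_filter] at h
  exact (Pool.Agent.H341R2.Sharp.mem_Mon.1 h.1).2

theorem prod_mem_Dn (h : S_PRD) {Δ : k[X]} (hΔ : Δ ≠ 0) {m n : ℕ} {P : Fin m → k[X]} (hP : Pfam Δ P) :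
    ∏ i, P i ∈ Dn Δ n ↔ ∑ i, (P i).natDegree = n := by
  have h1 := ((h k Δ hΔ).1 (Fin m) P hP).2
  constructor
  · intro h2
    rw [← natDegree_of_mem_Dn h1, natDegree_of_mem_Dn h2]
  · rintro rfl
    exact h1

/-- membership in `XA` of the product of a family -/
theorem mem_XA (h : S_PRD) {Δ : k[X]} (hΔ : Δ ≠ 0) {m n : ℕ} {P : Fin m → k[X]} (hP : Pfam Δ P) :
    ∏ i, P i ∈ XA Δ n ↔ ∑ i, (P i).natDegree = n ∧ m ≤ tn n ^ 12 ∧
      100 * ((univ : Finset (Fin m)).filter fun i => (P i).natDegree ≤ tn n ^ 40).card ≤ tn n ∧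
      (∀ i j, tn n ^ 40 < (P i).natDegree → (P i).natDegree = (P j).natDegree → i = j) ∧
      ∀ r : ℕ, Odd r → 1 < r → r ≤ tn n ^ 8 →
        tn n ^ 2 ≤ 8 * ((univ : Finset (Fin m)).filter fun i =>
          tn n ^ 40 < (P i).natDegree ∧ r ∣ (P i).natDegree).card := by
  have himg := ((h k Δ hΔ).1 (Fin m) P hP).1
  have hcard : (pr (∏ i, P i)).card = m := by
    rw [himg, card_image_of_injective _ hP.inj, card_univ, Fintype.card_fin]
  unfold XA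
  rw [mem_filter, prod_mem_Dn h hΔ hP, hcard, card_pr_filter h hΔ hP]
  have e3 : (∀ Q ∈ pr (∏ i, P i), ∀ Q' ∈ pr (∏ i, P i), tn n ^ 40 < Q.natDegree →
      Q.natDegree = Q'.natDegree → Q = Q') ↔
      ∀ i j, tn n ^ 40 < (P i).natDegree → (P i).natDegree = (P j).natDegree → i = j := by
    rw [himg]
    constructor
    · intro h1 i j h2 h3
      exact hP.inj (h1 _ (mem_image_of_mem _ (mem_univ i)) _ (mem_image_of_mem _ (mem_univ j)) h2 h3)
    · intro h1 Q hQ Q' hQ' h2 h3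
      obtain ⟨i, _, rfl⟩ := mem_image.1 hQ
      obtain ⟨j, _, rfl⟩ := mem_image.1 hQ'
      rw [h1 i j h2 h3]
  rw [e3]
  have e4 : (∀ r : ℕ, Odd r → 1 < r → r ≤ tn n ^ 8 →
    tn n ^ 2 ≤ 8 * ((pr (∏ i, P i)).filter fun P => tn n ^ 40 < P.natDegree ∧ r ∣ P.natDegree).card) ↔
      ∀ r : ℕ, Odd r → 1 < r → r ≤ tn n ^ 8 →
        tn n ^ 2 ≤ 8 * ((univ : Finset (Fin m)).filter fun i =>
          tn n ^ 40 < (P i).natDegree ∧ r ∣ (P i).natDegree).card := by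
    constructor
    · intro h1 r a1 a2 a3
      have := h1 r a1 a2 a3
      rwa [card_pr_filter h hΔ hP] at this
    · intro h1 r a1 a2 a3
      rw [card_pr_filter h hΔ hP]
      exact h1 r a1 a2 a3
  rw [e4]

/-- the set `XA` is closed under moves -/
theorem XA_closed (h : S_PRD) {Δ : k[X]} (hΔ : Δ ≠ 0) {n m : ℕ} (P0 : Fin m → k[X]) (mv : Finset (Fin m))
    (hC : IsCe Δ P0 mv) (hX : ∏ i, P0 i ∈ XA Δ n) (T : Fin m → k[X])
    (hT : T ∈ Fintype.piFinset (Ce P0 mv)) : ∏ i, T i ∈ XA Δ n := by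
  obtain ⟨h1, h2, h3⟩ := (h k Δ hΔ).2.2.2.2.2 m P0 mv hC T hT
  have h2' : ∀ i, (T i).natDegree = (P0 i).natDegree := h2
  rw [mem_XA h hΔ hC.fam] at hX
  rw [mem_XA h hΔ h1]
  simp_rw [h2']
  exact hX

theorem XA_sub {Δ : k[X]} {n : ℕ} : XA Δ n ⊆ Dn Δ n := filter_subset _ _

theorem XA_inj {Δ : k[X]} {n : ℕ} : ∀ D ∈ XA Δ n, ∀ P ∈ pr D, ∀ P' ∈ pr D, tn n ^ 40 < P.natDegree →
    P.natDegree = P'.natDegree → P = P' := by
  intro D hD
  unfold XA at hD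
  rw [mem_filter] at hD
  exact hD.2.2.2.1

end

/-! ### numbers -/

theorem num1 {t r : ℕ} (ht : 2 ≤ t) (hr : r ≤ t ^ 8) :
    (12 : ℝ) * 2 ^ r * ((t : ℝ) * (t : ℝ) ^ 40 + 2) ≤ 2 ^ t ^ 40 := by
  have h1 : t ≤ 2 ^ t := Nat.lt_two_pow_self.le
  have h2 : t * t ^ 40 ≤ 2 ^ (41 * t) := by
    calc t * t ^ 40 = t ^ 41 := by ring
      _ ≤ (2 ^ t) ^ 41 := Nat.pow_le_pow_left h1 _
      _ = 2 ^ (41 * t) := by rw [← pow_mul, mul_comm]
  have h3 : t * t ^ 40 + 2 ≤ 2 ^ (41 * t + 2) := by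
    have : 2 ≤ 2 ^ (41 * t) := by
      calc 2 = 2 ^ 1 := by norm_num
        _ ≤ _ := Nat.pow_le_pow_right (by norm_num) (by omega)
    rw [pow_add]
    omega
  have h4 : t ^ 8 + (41 * t + 2) + 4 ≤ t ^ 40 := by
    have a1 : t ≤ t ^ 8 := Nat.le_self_pow (by norm_num) _
    have a2 : 2 ^ 32 ≤ t ^ 32 := Nat.pow_le_pow_left ht _
    have a3 : t ^ 40 = t ^ 32 * t ^ 8 := by ring
    have a4 : 2 ^ 32 * t ^ 8 ≤ t ^ 32 * t ^ 8 := Nat.mul_le_mul_right _ a2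
    rw [a3]
    omega
  have h5 : 12 * 2 ^ r * (t * t ^ 40 + 2) ≤ 2 ^ t ^ 40 := by
    calc 12 * 2 ^ r * (t * t ^ 40 + 2) ≤ 2 ^ 4 * 2 ^ (t ^ 8) * 2 ^ (41 * t + 2) := by
          refine Nat.mul_le_mul (Nat.mul_le_mul (by norm_num) ?_) h3
          exact Nat.pow_le_pow_right (by norm_num) hr
      _ = 2 ^ (t ^ 8 + (41 * t + 2) + 4) := by rw [pow_add, pow_add]; ring
      _ ≤ _ := Nat.pow_le_pow_right (by norm_num) h4
  exact_mod_cast h5

theorem num2 {t σ l : ℕ} (ht : 64 ≤ t) (hσ : 100 * σ ≤ t) (hl : t ^ 2 ≤ 8 * l) :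
    (5 : ℝ) * 2 ^ (4 * σ + 64) * (5 / 6) ^ l ≤ 5 * 2 ^ 64 / 2 ^ t := by
  have h1 : 8 * t ≤ l := by nlinarith
  have h2 : ((5 : ℝ) / 6) ^ l ≤ (1 / 4) ^ t := by
    calc ((5 : ℝ) / 6) ^ l ≤ (5 / 6) ^ (8 * t) :=
          pow_le_pow_of_le_one (by norm_num) (by norm_num) h1
      _ = ((5 / 6) ^ 8) ^ t := by rw [pow_mul]
      _ ≤ _ := pow_le_pow_left₀ (by norm_num) (by norm_num) _
  have h3 : (2 : ℝ) ^ (4 * σ + 64) ≤ 2 ^ t * 2 ^ 64 := by
    rw [← pow_add]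
    exact pow_le_pow_right₀ (by norm_num) (by omega)
  calc (5 : ℝ) * 2 ^ (4 * σ + 64) * (5 / 6) ^ l ≤ 5 * (2 ^ t * 2 ^ 64) * (1 / 4) ^ t := by
        gcongr
    _ = 5 * 2 ^ 64 / 2 ^ t := by
        have : (1 / 4 : ℝ) ^ t = 1 / 2 ^ t * (1 / 2 ^ t) := by
          rw [← one_div_pow, ← mul_pow]
          norm_num
        rw [this]
        field_simp

theorem num3 {t r m e dl : ℕ} (ht : 2 ≤ t) (hm : m ≤ t ^ 12) (hr : r ≤ t ^ 8) (hd : dl + 3 ≤ t)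
    (he : e = (m + 1) * (2 + r) + dl + 3) :
    (m : ℝ) ^ 2 * Real.sqrt (2 ^ e * 2 ^ (r * m) * (8 * r) / 2 ^ (t ^ 40 / 2)) ≤ (t : ℝ) ^ 24 / 2 ^ t := by
  have a8 : 2 ≤ t ^ 8 := ht.trans (Nat.le_self_pow (by norm_num) _)
  have a12 : 1 ≤ t ^ 12 := Nat.one_le_pow _ _ (by omega)
  have a20 : t ≤ t ^ 20 := Nat.le_self_pow (by norm_num) _
  have h20 : 2 ^ 20 ≤ t ^ 20 := Nat.pow_le_pow_left ht _
  have h1 : e ≤ 5 * t ^ 20 := by
    have b1 : (m + 1) * (2 + r) ≤ (2 * t ^ 12) * (2 * t ^ 8) := Nat.mul_le_mul (by omega) (by omega)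
    have b2 : (2 * t ^ 12) * (2 * t ^ 8) = 4 * t ^ 20 := by ring
    omega
  have h2 : r * m ≤ t ^ 20 := by
    calc r * m ≤ t ^ 8 * t ^ 12 := Nat.mul_le_mul hr hm
      _ = t ^ 20 := by ring
  have h3 : 8 * r ≤ 2 ^ t ^ 20 := by
    have b1 : t ≤ 2 ^ t := Nat.lt_two_pow_self.le
    calc 8 * r ≤ 2 ^ 3 * (2 ^ t) ^ 8 :=
          Nat.mul_le_mul (by norm_num) (hr.trans (Nat.pow_le_pow_left b1 _))
      _ = 2 ^ (3 + t * 8) := by rw [← pow_mul, ← pow_add]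
      _ ≤ 2 ^ t ^ 20 := by
        refine Nat.pow_le_pow_right (by norm_num) ?_
        have c1 : t ^ 20 = t ^ 19 * t := by ring
        have c2 : 2 ^ 19 ≤ t ^ 19 := Nat.pow_le_pow_left ht _
        have c3 : 2 ^ 19 * t ≤ t ^ 19 * t := Nat.mul_le_mul_right _ c2
        omega
  have h4 : 9 * t ^ 20 ≤ t ^ 40 / 2 := by
    rw [Nat.le_div_iff_mul_le (by norm_num)]
    have c1 : t ^ 40 = t ^ 20 * t ^ 20 := by ring
    rw [c1]
    nlinarith
  have h5 : (2 : ℝ) ^ e * 2 ^ (r * m) * (8 * r) ≤ 2 ^ (7 * t ^ 20) := by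
    have b1 : 2 ^ e * 2 ^ (r * m) * (8 * r) ≤ 2 ^ (5 * t ^ 20) * 2 ^ (t ^ 20) * 2 ^ t ^ 20 :=
      Nat.mul_le_mul (Nat.mul_le_mul (Nat.pow_le_pow_right (by norm_num) h1)
        (Nat.pow_le_pow_right (by norm_num) h2)) h3
    have b2 : 2 ^ (5 * t ^ 20) * 2 ^ (t ^ 20) * 2 ^ t ^ 20 = 2 ^ (7 * t ^ 20) := by
      rw [← pow_add, ← pow_add]
      congr 1
      ring
    rw [b2] at b1
    exact_mod_cast b1
  have h6 : (2 : ℝ) ^ (9 * t ^ 20) ≤ 2 ^ (t ^ 40 / 2) := pow_le_pow_right₀ (by norm_num) h4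
  have h7 : (2 : ℝ) ^ e * 2 ^ (r * m) * (8 * r) / 2 ^ (t ^ 40 / 2) ≤ (1 / 2 ^ t) ^ 2 := by
    calc (2 : ℝ) ^ e * 2 ^ (r * m) * (8 * r) / 2 ^ (t ^ 40 / 2) ≤
          2 ^ (7 * t ^ 20) / 2 ^ (9 * t ^ 20) := by gcongr
      _ = (1 / 2 ^ t ^ 20) ^ 2 := by
          rw [show 9 * t ^ 20 = 7 * t ^ 20 + t ^ 20 * 2 by ring, pow_add, pow_mul 2 (t ^ 20) 2]
          field_simp
      _ ≤ (1 / 2 ^ t) ^ 2 := by
          gcongr
          norm_num
  have h8 : Real.sqrt (2 ^ e * 2 ^ (r * m) * (8 * r) / 2 ^ (t ^ 40 / 2)) ≤ 1 / 2 ^ t := by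
    calc _ ≤ Real.sqrt ((1 / 2 ^ t) ^ 2) := Real.sqrt_le_sqrt h7
      _ = _ := Real.sqrt_sq (by positivity)
  have h9 : (m : ℝ) ^ 2 ≤ (t : ℝ) ^ 24 := by
    calc (m : ℝ) ^ 2 ≤ ((t : ℝ) ^ 12) ^ 2 := by
          have : (m : ℝ) ≤ (t : ℝ) ^ 12 := by exact_mod_cast hm
          gcongr
      _ = _ := by ring
  calc _ ≤ (t : ℝ) ^ 24 * (1 / 2 ^ t) := mul_le_mul h9 h8 (Real.sqrt_nonneg _) (by positivity)
    _ = _ := by ring

/-- the uniform error -/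
noncomputable def bt (t : ℕ) : ℝ := 5 * 2 ^ 64 / 2 ^ t + 2 * ((t : ℝ) ^ 24 / 2 ^ t)

theorem bt_nonneg (t : ℕ) : 0 ≤ bt t := by unfold bt; positivity

theorem bt_tendsto : Filter.Tendsto (fun t : ℕ => (t : ℝ) ^ 8 * bt t) Filter.atTop (nhds 0) := by
  have h1 := tendsto_pow_const_div_const_pow_of_one_lt 8 (r := (2 : ℝ)) (by norm_num)
  have h2 := tendsto_pow_const_div_const_pow_of_one_lt 32 (r := (2 : ℝ)) (by norm_num)
  have h3 := (h1.const_mul (5 * 2 ^ 64)).add (h2.const_mul 2)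
  rw [mul_zero, mul_zero, add_zero] at h3
  refine h3.congr fun t => ?_
  unfold bt
  ring

section

variable {k : Type} [Field k] [Fintype k]

theorem cell_data' (h4 : S_ERA) (hq : 5 ≤ Fintype.card k) {a b : k[X]} {d₀ : ℕ}
    (hgen : ∀ d ≥ d₀, ∀ p q : F2, (p, q) ≠ (0, 0) →
      (1 / 3 : ℝ) * (Irn k d).card ≤ ((Irn k d).filter fun P =>
        (L (a * (a - b)) P, L (a * b) P) ≠ (0, 0) ∧ (L (a * (a - b)) P, L (a * b) P) ≠ (p, q)).card)
    {t : ℕ} (ht : 64 ≤ t) (hd₀ : d₀ ≤ t) (hΔ : (a * b * (a - b)).natDegree + 3 ≤ t)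
    {m : ℕ} (P0 : Fin m → k[X]) (mv : Finset (Fin m)) (hmem : ∀ i, i ∈ mv ↔ t ^ 40 < dg P0 i)
    (hC : IsCe (a * b * (a - b)) P0 mv) (hX2 : m ≤ t ^ 12)
    (hX3 : 100 * ((univ : Finset (Fin m)).filter fun i => (P0 i).natDegree ≤ t ^ 40).card ≤ t)
    {r : ℕ} (ho : Odd r) (h1 : 1 < r) (hr : r ≤ t ^ 8)
    (hX5 : t ^ 2 ≤ 8 * ((univ : Finset (Fin m)).filter fun i =>
          t ^ 40 < (P0 i).natDegree ∧ r ∣ (P0 i).natDegree).card) :
    Hyn a b P0 mv {r} ∧ nn P0 mv r + 2 * erT r P0 mv (2 ^ eT a b m {r}) ≤ bt t := by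
  have hfix : 100 * ((univ : Finset (Fin m)).filter fun i => i ∉ mv).card ≤ t := by
    have e : ((univ : Finset (Fin m)).filter fun i => i ∉ mv) =
        (univ : Finset (Fin m)).filter fun i => (P0 i).natDegree ≤ t ^ 40 := by
      ext i
      rw [mem_filter, mem_filter, hmem, not_lt]
      rfl
    rw [e]
    exact hX3
  have hfr : ((univ : Finset (Fin m)).filter fun i => i ∉ mv ∧ r ∣ dg P0 i).card ≤
      ((univ : Finset (Fin m)).filter fun i => i ∉ mv).card := by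
    refine card_le_card fun i hi => ?_
    rw [mem_filter] at hi ⊢
    exact ⟨hi.1, hi.2.1⟩
  have hmr : t ^ 2 ≤ 8 * (mv.filter fun i => r ∣ dg P0 i).card := by
    have e : (mv.filter fun i => r ∣ dg P0 i) =
        (univ : Finset (Fin m)).filter fun i => t ^ 40 < (P0 i).natDegree ∧ r ∣ (P0 i).natDegree := by
      ext i
      rw [mem_filter, mem_filter, hmem]
      constructor
      · intro h
        exact ⟨mem_univ _, h⟩
      · intro h
        exact h.2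
    rw [e]
    exact hX5
  have htp : t ≤ t ^ 40 := Nat.le_self_pow (by norm_num) _
  have hz : ∀ i ∈ mv, t ^ 40 < dg P0 i := fun i hi => (hmem i).1 hi
  refine ⟨⟨?_, ?_⟩, ?_⟩
  · intro j hj
    exact hgen _ (by have := hz j hj; omega)
  · intro r' hr'
    rw [mem_singleton] at hr'
    subst hr'
    refine ⟨ho, h1, ?_, ?_⟩
    · intro j hj
      have e1 : ∑ i ∈ (univ : Finset (Fin m)).filter (· ∉ mv), (dg P0 i : ℝ) ≤ (t : ℝ) * (t : ℝ) ^ 40 := by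
        calc ∑ i ∈ (univ : Finset (Fin m)).filter (· ∉ mv), (dg P0 i : ℝ) ≤
              ∑ i ∈ (univ : Finset (Fin m)).filter (· ∉ mv), (t : ℝ) ^ 40 := by
              refine sum_le_sum fun i hi => ?_
              rw [mem_filter, hmem, not_lt] at hi
              exact_mod_cast hi.2
          _ = (((univ : Finset (Fin m)).filter (· ∉ mv)).card : ℝ) * (t : ℝ) ^ 40 := by
              rw [sum_const, nsmul_eq_mul]
          _ ≤ _ := by
              have : (((univ : Finset (Fin m)).filter (· ∉ mv)).card : ℝ) ≤ t := by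
                have : ((univ : Finset (Fin m)).filter (· ∉ mv)).card ≤ t := by omega
                exact_mod_cast this
              gcongr
      have e2 : (2 : ℝ) ^ t ^ 40 ≤ Real.sqrt ((Fintype.card k : ℝ) ^ dg P0 j) := by
        rw [Real.le_sqrt (by positivity) (by positivity), ← pow_mul, mul_comm, pow_mul]
        calc ((2 : ℝ) ^ 2) ^ t ^ 40 ≤ (Fintype.card k : ℝ) ^ t ^ 40 := by
              have : (5 : ℝ) ≤ Fintype.card k := by exact_mod_cast hq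
              gcongr
              linarith
          _ ≤ (Fintype.card k : ℝ) ^ dg P0 j := by
              have : (1 : ℝ) ≤ Fintype.card k := by
                have : (5 : ℝ) ≤ Fintype.card k := by exact_mod_cast hq
                linarith
              exact pow_le_pow_right₀ this (hz j hj).le
      refine le_trans ?_ ((num1 (by omega) hr).trans e2)
      gcongr
    · have b1 : t ≤ t ^ 2 := Nat.le_self_pow (by norm_num) _
      omega
  · unfold bt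
    refine add_le_add ?_ ?_
    · unfold nn
      exact num2 ht (by omega) hmr
    · refine mul_le_mul_of_nonneg_left ?_ (by norm_num)
      have e1 := h4 k hq (a * b * (a - b)) r m (t ^ 40) P0 mv (by omega) hC hz (2 ^ eT a b m {r})
        (by positivity)
      refine e1.trans (num3 (by omega) hX2 hr hΔ ?_)
      unfold eT
      rw [sum_singleton]

/-- the data of the cells of `XA` for the orders `r ≤ t ^ 8` -/
theorem cell_data (h4 : S_ERA) (h7 : S_PRD) (hq : 5 ≤ Fintype.card k) {a b : k[X]}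
    (h0 : a * b * (a - b) ≠ 0) {d₀ : ℕ}
    (hgen : ∀ d ≥ d₀, ∀ p q : F2, (p, q) ≠ (0, 0) →
      (1 / 3 : ℝ) * (Irn k d).card ≤ ((Irn k d).filter fun P =>
        (L (a * (a - b)) P, L (a * b) P) ≠ (0, 0) ∧ (L (a * (a - b)) P, L (a * b) P) ≠ (p, q)).card)
    {n : ℕ} (ht : 64 ≤ tn n) (hd₀ : d₀ ≤ tn n) (hΔ : (a * b * (a - b)).natDegree + 3 ≤ tn n)
    {m : ℕ} (P0 : Fin m → k[X]) (mv : Finset (Fin m)) (hmem : ∀ i, i ∈ mv ↔ tn n ^ 40 < dg P0 i)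
    (hC : IsCe (a * b * (a - b)) P0 mv)
    (hX : ∏ i, P0 i ∈ XA (a * b * (a - b)) n) {r : ℕ} (ho : Odd r) (h1 : 1 < r) (hr : r ≤ tn n ^ 8) :
    Hyn a b P0 mv {r} ∧ nn P0 mv r + 2 * erT r P0 mv (2 ^ eT a b m {r}) ≤ bt (tn n) := by
  obtain ⟨hX1, hX2, hX3, hX4, hX5⟩ := (mem_XA h7 h0 hC.fam).1 hX
  exact cell_data' h4 hq hgen ht hd₀ hΔ P0 _ hmem hC hX2 hX3 ho h1 hr (hX5 r ho h1 hr)

end

end Pool.Agent.Q241.GR
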